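import Pool.Agent.Helper69.MWF.Stmts
import Pool.Agent.Helper69.MWF.BasicC
import Pool.Agent.Helper69.MWF.BasicT

/-!
# BOR: Borel sets of the theory
-/

set_option autoImplicit false

open Topology Set Filter TopologicalSpace
open Nat.Partrec (Code)

namespace Pool.Agent.Helper69.MWF

open Pool.Agent.Helper95.MW

namespace BOR27

theorem isOpen_WC (c : Code) (n : ℕ) : IsOpen {f : ℕ → ℕ | n ∈ WC c f} := by
  refine isOpen_of_Cy fun f hf => ?_
  obtain ⟨s, hs⟩ := WC_use hf
  exact ⟨s, fun g hg => hs g hg⟩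

theorem isOpen_segs (n : ℕ) : IsOpen {f : ℕ → ℕ | n ∈ segs f} := by
  refine isOpen_of_Cy fun f hf => ?_
  obtain ⟨s, hs⟩ := hf
  refine ⟨s, fun g hg => ?_⟩
  rw [mem_Cy_iff] at hg
  exact ⟨s, by rw [hg, hs]⟩

theorem borwc (A : Set ℕ) (c : Code) : MeasurableSet {f : ℕ → ℕ | A = WC c f} := by
  have : {f : ℕ → ℕ | A = WC c f} = ⋂ n, {f | n ∈ A ↔ n ∈ WC c f} := by
    ext f
    simp only [mem_iInter, Set.mem_ofPred_eq]
    exact Set.ext_iff
  rw [this]
  refine MeasurableSet.iInter fun n => ?_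
  by_cases h : n ∈ A
  · have e : {f : ℕ → ℕ | n ∈ A ↔ n ∈ WC c f} = {f | n ∈ WC c f} := by
      ext f; simp [h]
    rw [e]
    exact (isOpen_WC c n).measurableSet
  · have e : {f : ℕ → ℕ | n ∈ A ↔ n ∈ WC c f} = {f | n ∈ WC c f}ᶜ := by
      ext f; simp [h]
    rw [e]
    exact (isOpen_WC c n).measurableSet.compl

theorem borsw (c : Code) :
    MeasurableSet {p : (ℕ → ℕ) × (ℕ → ℕ) | segs p.1 = WC c p.2} := by
  have : {p : (ℕ → ℕ) × (ℕ → ℕ) | segs p.1 = WC c p.2} =
      ⋂ n, ({p | n ∈ segs p.1 ∧ n ∈ WC c p.2} ∪ ({p | n ∈ segs p.1}ᶜ ∩ {p | n ∈ WC c p.2}ᶜ)) := by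
    ext p
    simp only [mem_iInter, Set.mem_ofPred_eq, mem_union, mem_inter_iff, mem_compl_iff]
    rw [Set.ext_iff]
    refine forall_congr' fun n => ?_
    tauto
  rw [this]
  refine MeasurableSet.iInter fun n => ?_
  have h1 : MeasurableSet {p : (ℕ → ℕ) × (ℕ → ℕ) | n ∈ segs p.1} :=
    measurable_fst (isOpen_segs n).measurableSet
  have h2 : MeasurableSet {p : (ℕ → ℕ) × (ℕ → ℕ) | n ∈ WC c p.2} :=
    measurable_snd (isOpen_WC c n).measurableSet
  exact (h1.inter h2).union (h1.compl.inter h2.compl)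

open Classical in
/-- candidate for the value -/
noncomputable def cand (c : Code) (x : ℕ → ℕ) (n : ℕ) : ℕ :=
  if h : ∃ m, (dl m).length = n + 1 ∧ m ∈ WC c x then (dl (Nat.find h)).getD n 0 else 0

theorem cand_eq {c : Code} {x y : ℕ → ℕ} (h : segs y = WC c x) : cand c x = y := by
  classical
  funext n
  have h1 : ∃ m, (dl m).length = n + 1 ∧ m ∈ WC c x :=
    ⟨ec (ini y (n + 1)), by rw [dl_ec, ini_length], by rw [← h]; exact ini_mem_segs y _⟩
  unfold cand
  rw [dif_pos h1]
  have h2 := Nat.find_spec h1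
  generalize Nat.find h1 = m at h2
  rw [← h] at h2
  obtain ⟨h3, s, hs⟩ := h2
  rw [hs, dl_ec, ini_length] at h3
  rw [hs, dl_ec, h3, List.getD_eq_getElem?_getD, ini_get? (Nat.lt_succ_self n)]
  rfl

theorem measurable_cand (c : Code) : Measurable (cand c) := by
  classical
  rw [measurable_pi_iff]
  intro n
  refine measurable_to_countable' fun k => ?_
  have hW : ∀ m, MeasurableSet {x : ℕ → ℕ | m ∈ WC c x} := fun m => (isOpen_WC c m).measurableSet
  have e : (fun x => cand c x n) ⁻¹' {k} =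
      (⋃ m : ℕ, {x | ((dl m).length = n + 1 ∧ m ∈ WC c x) ∧
        (∀ m' < m, ¬ ((dl m').length = n + 1 ∧ m' ∈ WC c x)) ∧ (dl m).getD n 0 = k}) ∪
      {x | k = 0 ∧ ∀ m, ¬ ((dl m).length = n + 1 ∧ m ∈ WC c x)} := by
    ext x
    simp only [mem_preimage, mem_singleton_iff, mem_union, mem_iUnion, Set.mem_ofPred_eq]
    unfold cand
    by_cases h : ∃ m, (dl m).length = n + 1 ∧ m ∈ WC c x
    · rw [dif_pos h]
      constructor
      · intro hk
        exact Or.inl ⟨Nat.find h, Nat.find_spec h, fun m' hm' => Nat.find_min h hm', hk⟩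
      · rintro (⟨m, h1, h2, h3⟩ | ⟨-, h1⟩)
        · have : Nat.find h = m := by
            rw [Nat.find_eq_iff]
            exact ⟨h1, h2⟩
          rw [this]
          exact h3
        · obtain ⟨m, hm⟩ := h
          exact absurd hm (h1 m)
    · rw [dif_neg h]
      push Not at h
      constructor
      · intro hk
        exact Or.inr ⟨hk.symm, fun m hm => h m hm.1 hm.2⟩
      · rintro (⟨m, h1, -⟩ | ⟨hk, -⟩)
        · exact absurd h1.2 (h m h1.1)
        · exact hk.symm
  rw [e]
  have hP : ∀ m, MeasurableSet {x : ℕ → ℕ | (dl m).length = n + 1 ∧ m ∈ WC c x} := by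
    intro m
    by_cases h : (dl m).length = n + 1
    · simp only [h, true_and]; exact hW m
    · simp only [h, false_and]; exact MeasurableSet.const _
  refine MeasurableSet.union (MeasurableSet.iUnion fun m => ?_) ?_
  · refine (hP m).inter (MeasurableSet.inter ?_ (MeasurableSet.const _))
    have e2 : {x : ℕ → ℕ | ∀ m' < m, ¬ ((dl m').length = n + 1 ∧ m' ∈ WC c x)} =
        ⋂ m' : ℕ, ⋂ _ : m' < m, {x : ℕ → ℕ | (dl m').length = n + 1 ∧ m' ∈ WC c x}ᶜ := by
      ext x
      simp only [mem_iInter, mem_compl_iff, Set.mem_ofPred_eq]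
    show MeasurableSet {x : ℕ → ℕ | ∀ m' < m, ¬ ((dl m').length = n + 1 ∧ m' ∈ WC c x)}
    rw [e2]
    exact MeasurableSet.iInter fun m' => MeasurableSet.iInter fun _ => (hP m').compl
  · refine MeasurableSet.inter (MeasurableSet.const _) ?_
    have e2 : {x : ℕ → ℕ | ∀ m, ¬ ((dl m).length = n + 1 ∧ m ∈ WC c x)} =
        ⋂ m : ℕ, {x : ℕ → ℕ | (dl m).length = n + 1 ∧ m ∈ WC c x}ᶜ := by
      ext x
      simp only [mem_iInter, mem_compl_iff, Set.mem_ofPred_eq]
    show MeasurableSet {x : ℕ → ℕ | ∀ m, ¬ ((dl m).length = n + 1 ∧ m ∈ WC c x)}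
    rw [e2]
    exact MeasurableSet.iInter fun m => (hP m).compl

end BOR27

open BOR27

theorem st_BORWC27 : ST_BORWC := borwc

theorem st_BORSW27 : ST_BORSW := borsw

theorem st_BORLE27 : ST_BORLE := by
  have : {p : (ℕ → ℕ) × (ℕ → ℕ) | LE p.1 p.2} =
      ⋃ c : Code, {p : (ℕ → ℕ) × (ℕ → ℕ) | segs p.1 = WC c p.2} := by
    ext p
    simp only [mem_iUnion, Set.mem_ofPred_eq]
    exact le_iff_WC
  unfold ST_BORLE
  rw [this]
  have : Countable Code := Encodable.countable
  exact MeasurableSet.iUnion fun c => borsw c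

theorem st_BORCE27 : ST_BORCE := by
  intro A
  have : {f : ℕ → ℕ | CEIn A f} = ⋃ c : Code, {f : ℕ → ℕ | A = WC c f} := by
    ext f
    simp only [mem_iUnion, Set.mem_ofPred_eq]
    exact ceIn_iff
  rw [this]
  have : Countable Code := Encodable.countable
  exact MeasurableSet.iUnion fun c => borwc A c

theorem st_AP27 : ST_AP := by
  classical
  have hspec : ∀ (c : Code) x, (∃ y, segs y = WC c x) → segs (Ap c x) = WC c x := by
    intro c x h
    unfold Ap
    rw [dif_pos h]
    exact h.choose_spec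
  refine ⟨fun c => ?_, fun c x => ?_, fun x y h => ?_, hspec⟩
  · have h1 : MeasurableSet {x : ℕ → ℕ | segs (cand c x) = WC c x} :=
      (borsw c).preimage ((measurable_cand c).prodMk measurable_id)
    have h2 : Ap c = fun x => if x ∈ {x : ℕ → ℕ | segs (cand c x) = WC c x} then cand c x
        else fun _ => 0 := by
      funext x
      by_cases h : ∃ y, segs y = WC c x
      · have h3 := hspec c x h
        have h4 := cand_eq h3
        have h5 : x ∈ {x : ℕ → ℕ | segs (cand c x) = WC c x} := by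
          show segs (cand c x) = WC c x
          rw [h4]; exact h3
        simp only [if_pos h5]
        exact h4.symm
      · have h5 : x ∉ {x : ℕ → ℕ | segs (cand c x) = WC c x} := fun h6 => h ⟨_, h6⟩
        simp only [if_neg h5]
        unfold Ap
        rw [dif_neg h]
    rw [h2]
    exact Measurable.ite h1 (measurable_cand c) measurable_const
  · by_cases h : ∃ y, segs y = WC c x
    · exact le_iff_WC.2 ⟨c, hspec c x h⟩
    · unfold Ap
      rw [dif_neg h]
      exact le_zero x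
  · obtain ⟨c, hc⟩ := le_iff_WC.1 h
    exact ⟨c, segs_inj ((hspec c x ⟨y, hc⟩).trans hc.symm)⟩

end Pool.Agent.Helper69.MWF
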