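import Pool.Agent.Helper27.MWF.Fusion

/-!
# Baire category tools: Baire property, Kuratowski-Ulam (converse), chain condition
-/

set_option autoImplicit false

open Topology Set Filter TopologicalSpace

namespace MWFusion

section General

variable {α β : Type*} [TopologicalSpace α] [TopologicalSpace β]

/-- a set with the Baire property which is nonmeager in `O` is comeager in some open set -/
theorem bp_local {B O : Set α} (hB : BaireMeasurableSet B) (hO : IsOpen O)
    (h : ¬ IsMeagre (B ∩ O)) : ∃ U, IsOpen U ∧ U.Nonempty ∧ U ⊆ O ∧ IsMeagre (U \ B) := by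
  obtain ⟨u, hu, hBu⟩ := hB.residualEq_isOpen
  have h1 : IsMeagre (B \ u) := by
    rw [IsMeagre]
    filter_upwards [hBu] with x hx hx2
    have : B x = u x := hx
    have h3 : B x := hx2.1
    rw [this] at h3
    exact hx2.2 h3
  have h2 : IsMeagre (u \ B) := by
    rw [IsMeagre]
    filter_upwards [hBu] with x hx hx2
    have : B x = u x := hx
    have h3 : u x := hx2.1
    rw [← this] at h3
    exact hx2.2 h3
  refine ⟨u ∩ O, hu.inter hO, ?_, inter_subset_right, ?_⟩
  · by_contra hne
    rw [not_nonempty_iff_eq_empty] at hne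
    refine h (h1.mono ?_)
    intro x hx
    refine ⟨hx.1, fun hxu => ?_⟩
    have : x ∈ u ∩ O := ⟨hxu, hx.2⟩
    rw [hne] at this
    exact this
  · refine h2.mono ?_
    intro x hx
    exact ⟨hx.1.1, hx.2⟩

/-- no nonempty open set of a Baire space is meager -/
theorem not_meagre_of_open [BaireSpace α] {U : Set α} (hU : IsOpen U) (hn : U.Nonempty) :
    ¬ IsMeagre U := by
  intro h
  obtain ⟨x, hx, hx2⟩ := (dense_of_mem_residual h).inter_open_nonempty U hU hn
  exact hx2 hx

/-- a residual set and an open set -/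
theorem exists_mem_of_residual [BaireSpace α] {S U : Set α} (hS : S ∈ residual α)
    (hU : IsOpen U) (hn : U.Nonempty) : ∃ x ∈ U, x ∈ S := by
  obtain ⟨x, hx, hx2⟩ := (dense_of_mem_residual hS).inter_open_nonempty U hU hn
  exact ⟨x, hx, hx2⟩

/-- an everywhere nonmeager set with the Baire property is comeager -/
theorem meagre_diff_of_enOn {B O : Set α} (hB : BaireMeasurableSet B) (hO : IsOpen O)
    (h : ENOn B O) : IsMeagre (O \ B) := by
  by_contra hc
  have h1 : ¬ IsMeagre (Bᶜ ∩ O) := by
    intro h2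
    refine hc (h2.mono ?_)
    intro x hx
    exact ⟨hx.2, hx.1⟩
  obtain ⟨U, hU, hUn, hUO, hUm⟩ := bp_local hB.compl hO h1
  refine h U hU hUn hUO (hUm.mono ?_)
  intro x hx
  exact ⟨hx.2, fun h3 => h3 hx.1⟩

theorem residual_of_enOn {B : Set α} (hB : BaireMeasurableSet B) (h : ENOn B univ) :
    B ∈ residual α := by
  have h1 := meagre_diff_of_enOn hB isOpen_univ h
  rw [IsMeagre] at h1
  filter_upwards [h1] with x hx
  by_contra h2
  exact hx ⟨trivial, h2⟩

/-- Kuratowski-Ulam, converse direction -/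
theorem ku_conv [BaireSpace α] [BaireSpace β] [SecondCountableTopology β] {s : Set (α × β)}
    (hs : BaireMeasurableSet s) (h : {a | {b | (a, b) ∈ s} ∈ residual β} ∈ residual α) :
    s ∈ residual (α × β) := by
  by_contra hc
  have h1 : ¬ IsMeagre (sᶜ ∩ univ) := by
    intro h2
    rw [inter_univ, IsMeagre, compl_compl] at h2
    exact hc h2
  obtain ⟨U, hU, ⟨⟨a0, b0⟩, hab⟩, -, hUm⟩ := bp_local hs.compl isOpen_univ h1
  obtain ⟨V, W, hV, hW, haV, hbW, hVW⟩ := isOpen_prod_iff.1 hU a0 b0 hab
  rw [IsMeagre] at hUm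
  have h2 := Pool.Agent.Helper56.Cat.ku hUm
  obtain ⟨a, haV', ha1, ha2⟩ := exists_mem_of_residual (inter_mem h2 h) hV ⟨a0, haV⟩
  obtain ⟨b, hbW', hb1, hb2⟩ := exists_mem_of_residual (inter_mem ha1 ha2) hW ⟨b0, hbW⟩
  exact hb1 ⟨hVW ⟨haV', hbW'⟩, fun h3 => h3 hb2⟩

/-- a set with the Baire property whose preimage under an open map is comeager -/
theorem residual_of_preimage [BaireSpace α] {F : α → β} (hc : Continuous F) (ho : IsOpenMap F)
    (hsj : Function.Surjective F) {s : Set β} (hs : BaireMeasurableSet s)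
    (h : F ⁻¹' s ∈ residual α) : s ∈ residual β := by
  by_contra hcon
  have h1 : ¬ IsMeagre (sᶜ ∩ univ) := by
    intro h2
    rw [inter_univ, IsMeagre, compl_compl] at h2
    exact hcon h2
  obtain ⟨U, hU, ⟨y, hy⟩, -, hUm⟩ := bp_local hs.compl isOpen_univ h1
  obtain ⟨x, rfl⟩ := hsj y
  have h2 := hUm.preimage_of_isOpenMap hc ho
  rw [IsMeagre] at h2
  obtain ⟨z, hz, hz1, hz2⟩ := exists_mem_of_residual (inter_mem h2 h) (hU.preimage hc) ⟨x, hy⟩
  exact hz1 ⟨hz, fun h3 => h3 hz2⟩

/-- countable chain condition -/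
theorem ccc [BaireSpace α] [SecondCountableTopology α] {ι : Type*} {B : ι → Set α}
    (hB : ∀ i, BaireMeasurableSet (B i)) (hd : ∀ i j, i ≠ j → Disjoint (B i) (B j)) :
    {i | ¬ IsMeagre (B i)}.Countable := by
  have h1 : ∀ i : {i | ¬ IsMeagre (B i)}, ∃ V ∈ countableBasis α, IsMeagre (V \ B i.1) := by
    rintro ⟨i, hi⟩
    have h2 : ¬ IsMeagre (B i ∩ univ) := by rwa [inter_univ]
    obtain ⟨U, hU, ⟨x, hx⟩, -, hUm⟩ := bp_local (hB i) isOpen_univ h2
    obtain ⟨V, hV, hxV, hVU⟩ := (isBasis_countableBasis α).exists_subset_of_mem_open hx hU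
    exact ⟨V, hV, hUm.mono (sdiff_subset_sdiff_left hVU)⟩
  choose V hV hVm using h1
  have hinj : Function.Injective V := by
    intro i j hij
    by_contra hne
    have hne' : i.1 ≠ j.1 := fun h => hne (Subtype.ext h)
    have h3 : IsMeagre (V i) := by
      refine ((hVm i).union (hVm j)).mono ?_
      intro x hx
      by_cases hxi : x ∈ B i.1
      · right
        exact ⟨hij ▸ hx, fun hxj => (hd _ _ hne').le_bot ⟨hxi, hxj⟩⟩
      · left
        exact ⟨hx, hxi⟩
    exact not_meagre_of_open (isOpen_of_mem_countableBasis (hV i))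
      (nonempty_of_mem_countableBasis (hV i)) h3
  have hrange : (range V).Countable :=
    (countable_countableBasis α).mono (by rintro _ ⟨i, rfl⟩; exact hV i)
  have : Countable {i | ¬ IsMeagre (B i)} := by
    have : Countable (range V) := hrange.to_subtype
    exact Function.Injective.countable (f := fun i => (⟨V i, i, rfl⟩ : range V))
      (fun i j h => hinj (congrArg Subtype.val h))
  exact countable_coe_iff.1 this

end General

end MWFusion
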