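import Pool.Agent.Helper27.MWF.Fusion
import Pool.Agent.Helper69.MWF.Stmts

/-!
# FUS: the fusion lemma for columns
-/

set_option autoImplicit false

open Topology Set Filter TopologicalSpace

namespace Pool.Agent.Helper69.MWF

open Pool.Agent.Helper95.MW

namespace FUS

/-- columns as a homeomorphism -/
def cols : (ℕ → ℕ) ≃ₜ (ℕ → ℕ → ℕ) where
  toFun x := fun i => col x i
  invFun y := fun n => y n.unpair.1 n.unpair.2
  left_inv x := by
    funext n
    show x (Nat.pair n.unpair.1 n.unpair.2) = x n
    rw [Nat.pair_unpair]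
  right_inv y := by
    funext i n
    show y (Nat.pair i n).unpair.1 (Nat.pair i n).unpair.2 = y i n
    rw [Nat.unpair_pair]
  continuous_toFun := by
    refine continuous_pi fun i => continuous_pi fun n => ?_
    exact continuous_apply _
  continuous_invFun := by
    refine continuous_pi fun n => ?_
    exact (continuous_apply _).comp (continuous_apply _)

theorem exists_Cy_subset {U : Set (ℕ → ℕ)} (hU : IsOpen U) {y : ℕ → ℕ} (hy : y ∈ U) :
    ∃ n, Cy y n ⊆ U := by
  obtain ⟨s, hs⟩ := MWFusion.exists_ini_subset hU hy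
  exact ⟨s, fun x hx => hs x (ini_eq_of_agree fun i hi => hx i hi)⟩

theorem isOpen_Cy (f : ℕ → ℕ) (n : ℕ) : IsOpen (Cy f n) := by
  have : Cy f n = {x | ini x n = ini f n} := by
    ext x
    constructor
    · intro h
      exact ini_eq_of_agree fun i hi => h i hi
    · intro h i hi
      exact agree_of_ini_eq h i hi
  rw [this]
  exact MWFusion.isOpen_cyl_ini f n

end FUS

open FUS in
theorem st_FUS : ST_FUS := by
  intro A D hA hD
  have hA' : ∀ i, MWFusion.ENOn (A i) univ := by
    intro i U hU hUn _ hm
    obtain ⟨y, hy⟩ := hUn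
    obtain ⟨n, hn⟩ := exists_Cy_subset hU hy
    refine hA i y n (Nat.zero_le _) (fun j hj => absurd hj (by omega)) ?_
    exact hm.mono (inter_subset_inter_right _ hn)
  have hD' : cols.symm ⁻¹' D ∈ residual (ℕ → ℕ → ℕ) :=
    tendsto_residual_of_isOpenMap cols.symm.continuous cols.symm.isOpenMap hD
  obtain ⟨x, hx, hxA⟩ := MWFusion.fusion hD' hA'
  refine ⟨cols.symm x, hx, fun i => ?_⟩
  have : col (cols.symm x) i = x i := by
    have h := cols.apply_symm_apply x
    exact congrFun h i
  rw [this]
  exact hxA i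

end Pool.Agent.Helper69.MWF
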