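import Pool.Agent.Helper56.Category
import Pool.Agent.Helper95.MW.Cat

/-!
# Fusion lemma for arbitrary everywhere nonmeager sets, and translations between `Sm` and `IsMeagre`
-/

set_option autoImplicit false

open Topology Set Filter TopologicalSpace

namespace MWFusion

section General

variable {α : Type*} [TopologicalSpace α]

/-- `S` is nonmeager in every nonempty open subset of `O` -/
def ENOn (S O : Set α) : Prop := ∀ U, IsOpen U → U.Nonempty → U ⊆ O → ¬ IsMeagre (S ∩ U)

theorem ENOn.mono {S S' O O' : Set α} (h : ENOn S O) (hS : S ⊆ S') (hO : O' ⊆ O) :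
    ENOn S' O' := fun U hU hUn hUO hm =>
  h U hU hUn (hUO.trans hO) (hm.mono (inter_subset_inter_left _ hS))

/-- a nonmeager set is everywhere nonmeager in some nonempty open set -/
theorem exists_enOn [SecondCountableTopology α] {S : Set α} (hS : ¬ IsMeagre S) :
    ∃ O : Set α, IsOpen O ∧ O.Nonempty ∧ ENOn S O := by
  refine ⟨interior (Pool.Agent.Helper56.Cat.D S), isOpen_interior, ?_, ?_⟩
  · by_contra hne
    rw [not_nonempty_iff_eq_empty] at hne
    apply hS
    have h1 : IsMeagre (Pool.Agent.Helper56.Cat.D S) := by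
      have hn : IsNowhereDense (Pool.Agent.Helper56.Cat.D S) := by
        rw [(Pool.Agent.Helper56.Cat.isClosed_D S).isNowhereDense_iff]
        exact hne
      exact hn.isMeagre
    have h2 := (Pool.Agent.Helper56.Cat.isMeagre_diff_D S).union h1
    exact h2.mono (fun x hx => by
      by_cases h : x ∈ Pool.Agent.Helper56.Cat.D S
      · exact Or.inr h
      · exact Or.inl ⟨hx, h⟩)
  · intro U hU hUn hUO hm
    obtain ⟨x, hx⟩ := hUn
    exact interior_subset (hUO hx) U hU hx hm

/-- the version inside a given nonempty open set -/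
theorem exists_enOn_of_not [SecondCountableTopology α] {S O : Set α} (hO : IsOpen O)
    (hS : ¬ IsMeagre (S ∩ O)) :
    ∃ O' : Set α, IsOpen O' ∧ O'.Nonempty ∧ O' ⊆ O ∧ ENOn S O' := by
  obtain ⟨O', h1, h2, h3⟩ := exists_enOn hS
  have h4 : (O' ∩ O).Nonempty := by
    by_contra hne
    rw [not_nonempty_iff_eq_empty] at hne
    refine h3 O' h1 h2 Subset.rfl ?_
    have : S ∩ O ∩ O' = ∅ := by
      rw [inter_assoc, inter_comm O O', hne, inter_empty]
    rw [this]
    exact IsMeagre.empty
  exact ⟨O' ∩ O, h1.inter hO, h4, inter_subset_right,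
    fun U hU hUn hUO hm => h3 U hU hUn (hUO.trans inter_subset_left)
      (hm.mono (inter_subset_inter_left _ inter_subset_left))⟩

/-- prefix of length `n` from `a`, the rest from `y` -/
def glue (n : ℕ) (a y : ℕ → α) : ℕ → α := fun i => if i < n then a i else y i

omit [TopologicalSpace α] in
theorem glue_succ (n : ℕ) (a y : ℕ → α) (t : α) :
    glue (n + 1) (Function.update a n t) y = glue n a (Function.update y n t) := by
  funext i
  unfold glue
  rcases lt_trichotomy i n with h | h | h
  · rw [if_pos (by omega), if_pos h, Function.update_of_ne (by omega)]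
  · subst h
    rw [if_pos (by omega), if_neg (by omega), Function.update_self, Function.update_self]
  · rw [if_neg (by omega), if_neg (by omega), Function.update_of_ne (by omega)]

theorem update_preimage_residual (n : ℕ) {R : Set (ℕ → α)} (hR : R ∈ residual (ℕ → α)) :
    {p : α × (ℕ → α) | Function.update p.2 n p.1 ∈ R} ∈ residual (α × (ℕ → α)) := by
  have hc : Continuous (fun p : α × (ℕ → α) => Function.update p.2 n p.1) := by fun_prop
  have ho : IsOpenMap (fun p : α × (ℕ → α) => Function.update p.2 n p.1) := by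
    let e := Homeomorph.funSplitAt α n
    have h1 : (fun p : α × (ℕ → α) => Function.update p.2 n p.1)
        = e.symm ∘ (Prod.map id (Prod.snd ∘ e)) := by
      funext p
      apply e.injective
      simp only [Function.comp_apply, Homeomorph.apply_symm_apply]
      refine Prod.ext ?_ ?_
      · show Function.update p.2 n p.1 n = p.1
        rw [Function.update_self]
      · funext j
        show Function.update p.2 n p.1 j.1 = p.2 j.1
        rw [Function.update_of_ne j.2]
    rw [h1]
    exact e.symm.isOpenMap.comp (IsOpenMap.id.prodMap (isOpenMap_snd.comp e.isOpenMap))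
  exact tendsto_residual_of_isOpenMap hc ho hR

/-- the fusion lemma -/
theorem fusion [SecondCountableTopology α] [Nonempty α] [BaireSpace (ℕ → α)]
    {D : Set (ℕ → α)} (hD : D ∈ residual (ℕ → α)) {S : ℕ → Set α}
    (hS : ∀ i, ENOn (S i) univ) : ∃ x ∈ D, ∀ i, x i ∈ S i := by
  classical
  have hne : Nonempty α := inferInstance
  rw [mem_residual_iff] at hD
  obtain ⟨W0, hW0o, hW0d, hW0c, hW0s⟩ := hD
  -- enumerate the dense open sets
  obtain ⟨W, hWo, hWd, hWs⟩ : ∃ W : ℕ → Set (ℕ → α), (∀ n, IsOpen (W n)) ∧ (∀ n, Dense (W n)) ∧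
      (⋂ n, W n) ⊆ D := by
    by_cases hem : W0.Nonempty
    · obtain ⟨W, hW⟩ := hW0c.exists_eq_range hem
      refine ⟨W, fun n => hW0o _ (by rw [hW]; exact ⟨n, rfl⟩),
        fun n => hW0d _ (by rw [hW]; exact ⟨n, rfl⟩), ?_⟩
      rw [← sInter_range, ← hW]
      exact hW0s
    · rw [not_nonempty_iff_eq_empty] at hem
      refine ⟨fun _ => univ, fun _ => isOpen_univ, fun _ => dense_univ, ?_⟩
      rw [hem, sInter_empty] at hW0s
      exact (subset_univ _).trans hW0s
  set D' : Set (ℕ → α) := ⋂ n, W n with hD'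
  have hD'r : D' ∈ residual (ℕ → α) :=
    countable_iInter_mem.2 fun n => residual_of_dense_open (hWo n) (hWd n)
  -- the invariant
  let P : ℕ → (ℕ → α) × (ℕ → Set α) → Prop := fun n s =>
    {y | glue n s.1 y ∈ D'} ∈ residual (ℕ → α) ∧ (∀ i, IsOpen (s.2 i)) ∧
    (∀ i, (s.2 i).Nonempty) ∧ (∀ i, i < n → s.1 i ∈ s.2 i) ∧
    (∃ F : Finset ℕ, ∀ i ∉ F, s.2 i = univ)
  let R : ℕ → (ℕ → α) × (ℕ → Set α) → (ℕ → α) × (ℕ → Set α) → Prop := fun n s s' =>
    (∀ i, i < n → s'.1 i = s.1 i) ∧ s'.1 n ∈ S n ∧ (∀ i, s'.2 i ⊆ s.2 i) ∧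
      Set.pi univ s'.2 ⊆ W n
  have step : ∀ n s, P n s → ∃ s', P (n + 1) s' ∧ R n s s' := by
    rintro n ⟨a, V⟩ ⟨h1, h2, h3, h4, F, h5⟩
    simp only at h1 h2 h3 h4 h5
    -- choose the next point
    have h6 : {p : α × (ℕ → α) | Function.update p.2 n p.1 ∈ {y | glue n a y ∈ D'}} ∈
        residual (α × (ℕ → α)) := update_preimage_residual n h1
    have h7 := Pool.Agent.Helper56.Cat.ku h6
    have h8 : ∃ t, t ∈ S n ∩ V n ∧
        {b : ℕ → α | (t, b) ∈ {p : α × (ℕ → α) | Function.update p.2 n p.1 ∈
          {y | glue n a y ∈ D'}}} ∈ residual (ℕ → α) := by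
      by_contra hc
      push Not at hc
      refine hS n (V n) (h2 n) (h3 n) (subset_univ _) ?_
      rw [IsMeagre]
      filter_upwards [h7] with t ht htS
      exact hc t htS ht
    obtain ⟨t, ⟨htS, htV⟩, h9⟩ := h8
    set a' : ℕ → α := Function.update a n t with ha'
    have h10 : {y | glue (n + 1) a' y ∈ D'} ∈ residual (ℕ → α) := by
      filter_upwards [h9] with y hy
      show glue (n + 1) (Function.update a n t) y ∈ D'
      rw [glue_succ]
      exact hy
    have ha'V : ∀ i, i < n + 1 → a' i ∈ V i := by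
      intro i hi
      rcases Nat.lt_succ_iff_lt_or_eq.1 hi with h | h
      · rw [ha', Function.update_of_ne (by omega)]
        exact h4 i h
      · subst h
        rw [ha', Function.update_self]
        exact htV
    -- a point in the promise
    have hVo : IsOpen (Set.pi univ V) := by
      have : Set.pi univ V = Set.pi (F : Set ℕ) V := by
        ext y
        simp only [Set.mem_pi, mem_univ, true_implies, Finset.mem_coe]
        refine ⟨fun h i _ => h i, fun h i => ?_⟩
        by_cases hi : i ∈ F
        · exact h i hi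
        · rw [h5 i hi]; trivial
      rw [this]
      exact isOpen_set_pi F.finite_toSet (fun i _ => h2 i)
    have hVn : (Set.pi univ V).Nonempty := by
      choose f hf using h3
      exact ⟨f, fun i _ => hf i⟩
    obtain ⟨y, hy1, hy2⟩ := (dense_of_mem_residual h10).inter_open_nonempty _ hVo hVn
    set z : ℕ → α := glue (n + 1) a' y with hz
    have hzV : z ∈ Set.pi univ V := by
      intro i _
      rw [hz]
      unfold glue
      by_cases hi : i < n + 1
      · rw [if_pos hi]; exact ha'V i hi
      · rw [if_neg hi]; exact hy1 i trivial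
    have hzW : z ∈ W n := mem_iInter.1 hy2 n
    have hO : IsOpen (Set.pi univ V ∩ W n) := hVo.inter (hWo n)
    rw [isOpen_pi_iff] at hO
    obtain ⟨I, u, hu1, hu2⟩ := hO z ⟨hzV, hzW⟩
    refine ⟨(a', fun i => if i ∈ I then u i ∩ V i else V i), ⟨h10, ?_, ?_, ?_, F ∪ I, ?_⟩, ?_, ?_, ?_, ?_⟩
    · intro i
      simp only
      by_cases hi : i ∈ I
      · rw [if_pos hi]; exact (hu1 i hi).1.inter (h2 i)
      · rw [if_neg hi]; exact h2 i
    · intro i
      simp only
      by_cases hi : i ∈ I
      · rw [if_pos hi]; exact ⟨z i, (hu1 i hi).2, hzV i trivial⟩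
      · rw [if_neg hi]; exact h3 i
    · intro i hi'
      simp only
      by_cases hi : i ∈ I
      · rw [if_pos hi]
        refine ⟨?_, ha'V i hi'⟩
        have h11 := (hu1 i hi).2
        have h12 : z i = a' i := by
          rw [hz]; unfold glue; rw [if_pos hi']
        rwa [h12] at h11
      · rw [if_neg hi]; exact ha'V i hi'
    · intro i hi
      rw [Finset.mem_union, not_or] at hi
      simp only
      rw [if_neg hi.2]
      exact h5 i hi.1
    · intro i hi
      simp only
      rw [ha', Function.update_of_ne (by omega)]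
    · simp only
      rw [ha', Function.update_self]
      exact htS
    · intro i
      simp only
      by_cases hi : i ∈ I
      · rw [if_pos hi]; exact inter_subset_right
      · rw [if_neg hi]
    · intro x hx
      have : x ∈ (I : Set ℕ).pi u := by
        intro i hi
        have := hx i trivial
        simp only at this
        rw [if_pos (by simpa using hi)] at this
        exact this.1
      exact (hu2 this).2
  choose! f hf using step
  obtain ⟨a0⟩ := hne
  let st : ℕ → (ℕ → α) × (ℕ → Set α) := fun n =>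
    Nat.rec ((fun _ => a0), fun _ => univ) (fun k s => f k s) n
  have hst : ∀ k, st (k + 1) = f k (st k) := fun k => rfl
  have hP0 : P 0 (st 0) := by
    refine ⟨?_, fun i => isOpen_univ, fun i => ⟨a0, trivial⟩, fun i hi => absurd hi (by omega),
      ∅, fun i _ => rfl⟩
    have : {y | glue 0 (st 0).1 y ∈ D'} = D' := by
      ext y
      have : glue 0 (st 0).1 y = y := by
        funext i; unfold glue; rw [if_neg (by omega)]
      rw [Set.mem_ofPred_eq, this]
    rw [this]
    exact hD'r
  have hP : ∀ n, P n (st n) := by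
    intro n
    induction n with
    | zero => exact hP0
    | succ n ih => rw [hst]; exact (hf n _ ih).1
  have hR : ∀ n, R n (st n) (st (n + 1)) := fun n => by rw [hst]; exact (hf n _ (hP n)).2
  -- coordinates stabilise
  have hag : ∀ m n, n ≤ m → ∀ i, i < n → (st m).1 i = (st n).1 i := by
    intro m n hnm
    induction m, hnm using Nat.le_induction with
    | base => intro i _; rfl
    | succ m hm ih =>
      intro i hi
      rw [(hR m).1 i (by omega)]
      exact ih i hi
  have hsub : ∀ m n, n ≤ m → ∀ i, (st m).2 i ⊆ (st n).2 i := by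
    intro m n hnm
    induction m, hnm using Nat.le_induction with
    | base => intro i; exact Subset.rfl
    | succ m hm ih =>
      intro i
      exact ((hR m).2.2.1 i).trans (ih i)
  let x : ℕ → α := fun i => (st (i + 1)).1 i
  have hx : ∀ m i, i < m → (st m).1 i = x i := fun m i hi => hag m (i + 1) hi i (by omega)
  have hxV : ∀ n i, x i ∈ (st n).2 i := by
    intro n i
    have h1 : (st (max n (i + 1))).1 i ∈ (st (max n (i + 1))).2 i :=
      (hP (max n (i + 1))).2.2.2.1 i (by omega)
    rw [hx _ i (by omega)] at h1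
    exact hsub _ n (le_max_left _ _) i h1
  refine ⟨x, hWs (mem_iInter.2 fun n => ?_), fun i => ?_⟩
  · exact (hR n).2.2.2 (fun i _ => hxV (n + 1) i)
  · exact (hR i).2.1

end General

section Baire

open Pool.Agent.Helper95.MW

theorem isOpen_cyl_ini (y : ℕ → ℕ) (s : ℕ) : IsOpen {x : ℕ → ℕ | ini x s = ini y s} := by
  have : {x : ℕ → ℕ | ini x s = ini y s} = Set.pi (Finset.range s : Set ℕ) (fun i => {y i}) := by
    ext x
    constructor
    · intro h i hi
      exact agree_of_ini_eq h i (by simpa using hi)
    · intro h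
      exact ini_eq_of_agree fun i hi => h i (by simpa using hi)
  rw [this]
  exact isOpen_set_pi (Finset.range s).finite_toSet (fun i _ => isOpen_discrete _)

/-- basic neighbourhoods -/
theorem exists_ini_subset {U : Set (ℕ → ℕ)} (hU : IsOpen U) {y : ℕ → ℕ} (hy : y ∈ U) :
    ∃ s, ∀ x, ini x s = ini y s → x ∈ U := by
  rw [isOpen_pi_iff] at hU
  obtain ⟨I, u, h1, h2⟩ := hU y hy
  refine ⟨I.sup id + 1, fun x hx => h2 ?_⟩
  intro i hi
  have h3 : i < I.sup id + 1 := Nat.lt_succ_of_le (Finset.le_sup (f := id) hi)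
  rw [agree_of_ini_eq hx i h3]
  exact (h1 i hi).2

theorem nwd_iff {X : Set (ℕ → ℕ)} : NWD X ↔ IsNowhereDense X := by
  constructor
  · intro h
    rw [IsNowhereDense, eq_empty_iff_forall_notMem]
    intro y hy
    obtain ⟨s, hs⟩ := exists_ini_subset isOpen_interior hy
    obtain ⟨y', s', h1, h2, h3⟩ := h y s
    have h4 : y' ∈ closure X := interior_subset (hs y' h2)
    obtain ⟨x, hx1, hx2⟩ := mem_closure_iff.1 h4 _ (isOpen_cyl_ini y' s') rfl
    exact h3 x hx2 hx1
  · intro h y s
    by_contra hc
    push Not at hc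
    have : y ∈ interior (closure X) := by
      refine mem_interior.2 ⟨{x | ini x s = ini y s}, ?_, isOpen_cyl_ini y s, rfl⟩
      intro y' hy'
      rw [mem_closure_iff]
      intro U hU hyU
      obtain ⟨t, ht⟩ := exists_ini_subset hU hyU
      obtain ⟨x, hx, hx2⟩ := hc y' (max s t) (le_max_left _ _) hy'
      exact ⟨x, ht x (ini_eq_of_le (le_max_right _ _) hx2), hx⟩
    rw [h] at this
    exact this

theorem sm_iff {X : Set (ℕ → ℕ)} : Sm X ↔ IsMeagre X := by
  rw [isMeagre_iff_countable_union_isNowhereDense]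
  constructor
  · rintro ⟨S, h1, h2, h3⟩
    exact ⟨S, fun N hN => nwd_iff.1 (h2 N hN), h1, h3⟩
  · rintro ⟨S, h1, h2, h3⟩
    exact ⟨S, h2, fun N hN => nwd_iff.2 (h1 N hN), h3⟩

end Baire

end MWFusion
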