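import Pool.Agent.Helper27.MWF.BP
import Pool.Agent.Helper69.MWF.Stmts
import Pool.Agent.Helper69.MWF.BasicC
import Pool.Agent.Helper69.MWF.BasicT

/-!
# INF: generic columns are independent
-/

set_option autoImplicit false

open Topology Set Filter TopologicalSpace
open Nat.Partrec (Code)

namespace Pool.Agent.Helper69.MWF

open Pool.Agent.Helper95.MW

namespace INF

/-- replace the column `i` of `h` by `t` -/
def upd (i : ℕ) (t h : ℕ → ℕ) : ℕ → ℕ := fun n => if n.unpair.1 = i then t n.unpair.2 else h n

theorem col_upd (i : ℕ) (t h : ℕ → ℕ) : col (upd i t h) i = t := by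
  funext n
  show (if (Nat.pair i n).unpair.1 = i then t (Nat.pair i n).unpair.2 else h (Nat.pair i n)) = t n
  rw [Nat.unpair_pair, if_pos rfl]

theorem upd_col (i : ℕ) (x h : ℕ → ℕ) : upd i (col x i) (upd i (col h i) x) = x := by
  funext n
  show (if n.unpair.1 = i then x (Nat.pair i n.unpair.2) else
    (if n.unpair.1 = i then h (Nat.pair i n.unpair.2) else x n)) = x n
  by_cases hn : n.unpair.1 = i
  · rw [if_pos hn, ← hn, Nat.pair_unpair]
  · rw [if_neg hn, if_neg hn]

theorem upd_upd (i : ℕ) (t h : ℕ → ℕ) : upd i (col h i) (upd i t h) = h := by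
  funext n
  show (if n.unpair.1 = i then h (Nat.pair i n.unpair.2) else
    (if n.unpair.1 = i then t n.unpair.2 else h n)) = h n
  by_cases hn : n.unpair.1 = i
  · rw [if_pos hn, ← hn, Nat.pair_unpair]
  · rw [if_neg hn, if_neg hn]

theorem upd_le (i : ℕ) (t h : ℕ → ℕ) : LE (upd i t h) (jn t h) := by
  have h1 : LE (fun n => t n.unpair.2) (jn t h) :=
    (le_comp_primrec (Primrec.snd.comp Primrec.unpair)).trans (le_jn_left t h)
  have h2 := le_fun3 (w := jn t h) (a := fun n => t n.unpair.2) (b := h)
    (G := fun n a b => if n.unpair.1 = i then a else b) (by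
      refine Primrec.ite ?_ ?_ ?_
      · exact Primrec.eq.comp (Primrec.fst.comp (Primrec.unpair.comp Primrec.fst))
          (Primrec.const i)
      · exact Primrec.fst.comp Primrec.snd
      · exact Primrec.snd.comp Primrec.snd) h1 (le_jn_right t h)
  exact h2

theorem continuous_upd (i : ℕ) : Continuous (fun p : (ℕ → ℕ) × (ℕ → ℕ) => upd i p.1 p.2) := by
  refine continuous_pi fun n => ?_
  by_cases hn : n.unpair.1 = i
  · have : (fun p : (ℕ → ℕ) × (ℕ → ℕ) => upd i p.1 p.2 n) = fun p => p.1 n.unpair.2 := by
      funext p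
      show (if n.unpair.1 = i then p.1 n.unpair.2 else p.2 n) = p.1 n.unpair.2
      rw [if_pos hn]
    rw [this]
    exact (continuous_apply _).comp continuous_fst
  · have : (fun p : (ℕ → ℕ) × (ℕ → ℕ) => upd i p.1 p.2 n) = fun p => p.2 n := by
      funext p
      show (if n.unpair.1 = i then p.1 n.unpair.2 else p.2 n) = p.2 n
      rw [if_neg hn]
    rw [this]
    exact (continuous_apply _).comp continuous_snd

theorem continuous_col (i : ℕ) : Continuous (fun x : ℕ → ℕ => col x i) :=
  continuous_pi fun _ => continuous_apply _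

theorem isOpenMap_upd (i : ℕ) : IsOpenMap (fun p : (ℕ → ℕ) × (ℕ → ℕ) => upd i p.1 p.2) := by
  refine IsOpenMap.of_sections fun p => ⟨fun x => (col x i, upd i (col p.2 i) x), ?_, ?_, ?_⟩
  · refine Continuous.continuousAt ?_
    have h1 : Continuous (fun x : ℕ → ℕ => upd i (col p.2 i) x) :=
      (continuous_upd i).comp (f := fun x : ℕ → ℕ => (col p.2 i, x))
        (continuous_const.prodMk continuous_id)
    exact (continuous_col i).prodMk h1
  · show (col (upd i p.1 p.2) i, upd i (col p.2 i) (upd i p.1 p.2)) = p
    rw [col_upd, upd_upd]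
  · intro x
    exact upd_col i x p.2

theorem surjective_upd (i : ℕ) :
    Function.Surjective (fun p : (ℕ → ℕ) × (ℕ → ℕ) => upd i p.1 p.2) := fun x =>
  ⟨(col x i, upd i (col x i) x), upd_col i x x⟩

end INF

open INF in
theorem st_INF27 (hAP : ST_AP) (hBORLE : ST_BORLE) : ST_INF := by
  intro b
  obtain ⟨hA1, hA2, hA3, hA4⟩ := hAP
  rw [eventually_countable_forall]
  intro i
  have hjm : Measurable (fun x : ℕ → ℕ => jn b (col x i)) := by
    refine Continuous.measurable (continuous_pi fun n => ?_)
    exact (continuous_of_discreteTopology (f := fun m : ℕ => Nat.pair (b n) m)).comp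
      (continuous_apply (Nat.pair i n))
  have key : ∀ e : Code, ∀ᶠ x in residual (ℕ → ℕ),
      LE (Ap e (jn b (col x i))) x → LE (Ap e (jn b (col x i))) (col x i) := by
    intro e
    set Z : Set (ℕ → ℕ) := {x | LE (Ap e (jn b (col x i))) x →
      LE (Ap e (jn b (col x i))) (col x i)} with hZ
    have hm1 : MeasurableSet {x : ℕ → ℕ | LE (Ap e (jn b (col x i))) x} :=
      hBORLE.preimage (((hA1 e).comp hjm).prodMk measurable_id)
    have hm2 : MeasurableSet {x : ℕ → ℕ | LE (Ap e (jn b (col x i))) (col x i)} :=
      hBORLE.preimage (((hA1 e).comp hjm).prodMk (continuous_col i).measurable)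
    have hZm : MeasurableSet Z := by
      have : Z = {x : ℕ → ℕ | LE (Ap e (jn b (col x i))) x}ᶜ ∪
          {x : ℕ → ℕ | LE (Ap e (jn b (col x i))) (col x i)} := by
        ext x
        simp only [hZ, mem_union, mem_compl_iff, Set.mem_ofPred_eq]
        tauto
      rw [this]
      exact hm1.compl.union hm2
    refine MWFusion.residual_of_preimage (continuous_upd i) (isOpenMap_upd i) (surjective_upd i)
      hZm.baireMeasurableSet ?_
    refine MWFusion.ku_conv ?_ ?_
    · exact MeasurableSet.baireMeasurableSet ((continuous_upd i).measurable hZm)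
    · refine Eventually.of_forall fun t => ?_
      show ∀ᶠ h in residual (ℕ → ℕ), LE (Ap e (jn b (col (upd i t h) i))) (upd i t h) →
        LE (Ap e (jn b (col (upd i t h) i))) (col (upd i t h) i)
      simp only [col_upd]
      by_cases ht : LE (Ap e (jn b t)) t
      · exact Eventually.of_forall fun h _ => ht
      · filter_upwards [ind ht] with h hh h2
        exact absurd (h2.trans (upd_le i t h)) hh
  have h2 : ∀ᶠ x in residual (ℕ → ℕ), ∀ e : Code,
      LE (Ap e (jn b (col x i))) x → LE (Ap e (jn b (col x i))) (col x i) := by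
    have : Countable Code := Encodable.countable
    rw [eventually_countable_forall]
    exact key
  filter_upwards [h2] with x hx u hu1 hu2
  obtain ⟨e, he⟩ := hA3 _ _ hu2
  have := hx e
  rw [he] at this
  exact this hu1

end Pool.Agent.Helper69.MWF
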