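import Pool.Agent.Helper27.MWF.BP
import Pool.Agent.Helper69.MWF.Stmts
import Pool.Agent.Helper69.MWF.BasicC
import Pool.Agent.Helper69.MWF.BasicT

/-!
# MC, BM: Borel maps are continuous, and computable with an oracle, on a residual set
-/

set_option autoImplicit false

open Topology Set Filter TopologicalSpace
open Nat.Partrec (Code)

namespace Pool.Agent.Helper69.MWF

open Pool.Agent.Helper95.MW

namespace MC27

theorem fiber_open {F : (ℕ → ℕ) → (ℕ → ℕ)} (hF : Measurable F) :
    ∃ O : ℕ → ℕ → Set (ℕ → ℕ), (∀ n k, IsOpen (O n k)) ∧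
      ∀ᶠ x in residual (ℕ → ℕ), ∀ n k, F x n = k ↔ x ∈ O n k := by
  have h1 : ∀ n k : ℕ, ∃ u : Set (ℕ → ℕ), IsOpen u ∧
      {x | F x n = k} =ᶠ[residual (ℕ → ℕ)] u := by
    intro n k
    have hm : MeasurableSet {x | F x n = k} := by
      have h2 : Measurable (fun x => F x n) := (measurable_pi_apply n).comp hF
      exact h2 (measurableSet_singleton k)
    exact hm.residualEq_isOpen
  choose O hO hO2 using h1
  refine ⟨O, hO, ?_⟩
  rw [eventually_countable_forall]
  intro n
  rw [eventually_countable_forall]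
  intro k
  filter_upwards [hO2 n k] with x hx
  have : (F x n = k) = (x ∈ O n k) := hx
  rw [this]

/-- the test of the search -/
def rho (e : ℕ) (v : ℕ × (ℕ × ℕ × ℕ) × List ℕ) : Bool :=
  decide (v.2.1.2.1 ≤ v.2.2.length) &&
    (decide (Nat.pair e (Nat.pair v.1 (Nat.pair v.2.1.1
      (ec ((List.range v.2.1.2.1).map fun i => (v.2.2.getD i 0).unpair.2)))) < v.2.2.length) &&
    decide ((v.2.2.getD (Nat.pair e (Nat.pair v.1 (Nat.pair v.2.1.1
      (ec ((List.range v.2.1.2.1).map fun i => (v.2.2.getD i 0).unpair.2))))) 0).unpair.1 = 1))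

theorem primrec_rho (e : ℕ) : Primrec (rho e) := by
  have hy : Primrec fun v : ℕ × (ℕ × ℕ × ℕ) × List ℕ =>
      ec ((List.range v.2.1.2.1).map fun i => (v.2.2.getD i 0).unpair.2) := by
    refine primrec_ec.comp ?_
    refine Primrec.list_map (Primrec.list_range.comp (Primrec.fst.comp (Primrec.snd.comp
      (Primrec.fst.comp Primrec.snd)))) ?_
    exact (Primrec.snd.comp (Primrec.unpair.comp ((Primrec.list_getD 0).comp
      (Primrec.snd.comp (Primrec.snd.comp Primrec.fst)) Primrec.snd)))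
  have hidx : Primrec fun v : ℕ × (ℕ × ℕ × ℕ) × List ℕ =>
      Nat.pair e (Nat.pair v.1 (Nat.pair v.2.1.1
        (ec ((List.range v.2.1.2.1).map fun i => (v.2.2.getD i 0).unpair.2)))) := by
    refine Primrec₂.natPair.comp (Primrec.const e) (Primrec₂.natPair.comp Primrec.fst
      (Primrec₂.natPair.comp (Primrec.fst.comp (Primrec.fst.comp Primrec.snd)) hy))
  have hlen : Primrec fun v : ℕ × (ℕ × ℕ × ℕ) × List ℕ => v.2.2.length :=
    Primrec.list_length.comp (Primrec.snd.comp Primrec.snd)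
  refine Primrec.and.comp ?_ (Primrec.and.comp ?_ ?_)
  · exact (PrimrecRel.decide Primrec.nat_le).comp (Primrec.fst.comp (Primrec.snd.comp
      (Primrec.fst.comp Primrec.snd))) hlen
  · exact (PrimrecRel.decide Primrec.nat_lt).comp hidx hlen
  · refine (PrimrecRel.decide Primrec.eq).comp ?_ (Primrec.const 1)
    exact Primrec.fst.comp (Primrec.unpair.comp ((Primrec.list_getD 0).comp
      (Primrec.snd.comp Primrec.snd) hidx))

theorem getD_ini {f : ℕ → ℕ} {s i : ℕ} (h : i < s) : (ini f s).getD i 0 = f i := by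
  rw [List.getD_eq_getElem?_getD, ini_get? h]
  rfl

end MC27

open MC27 in
theorem st_MC27 : ST_MC := by
  intro F hF
  obtain ⟨O, hO, hOe⟩ := fiber_open hF
  refine ⟨{x | ∀ n k, F x n = k ↔ x ∈ O n k}, hOe, ?_⟩
  intro x hx n
  have h1 : ∀ i, ∃ m, Cy x m ⊆ O i (F x i) := fun i =>
    exists_Cy_subset (hO _ _) ((hx i _).1 rfl)
  choose m hm using h1
  refine ⟨(Finset.range n).sup m, fun x' hx' hx'C i hi => ?_⟩
  refine (hx' i (F x i)).2 (hm i (Cy_mono ?_ hx'C))
  exact Finset.le_sup (Finset.mem_range.2 hi)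

open MC27 in
open Classical in
theorem st_BM27 : ST_BM := by
  intro F hF
  choose O hO hOe using fun e => fiber_open (hF e)
  set b : ℕ → ℕ := fun q => if {x | ini x (dl q.unpair.2.unpair.2.unpair.2).length =
    dl q.unpair.2.unpair.2.unpair.2} ⊆ O q.unpair.1 q.unpair.2.unpair.1
      q.unpair.2.unpair.2.unpair.1 then 1 else 0 with hb
  have hbv : ∀ e n k (x : ℕ → ℕ) s, b (Nat.pair e (Nat.pair n (Nat.pair k (ec (ini x s))))) = 1 ↔
      Cy x s ⊆ O e n k := by
    intro e n k x s
    simp only [hb, Nat.unpair_pair, dl_ec, ini_length]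
    have : {x' : ℕ → ℕ | ini x' s = ini x s} = Cy x s := by
      ext x'
      exact (mem_Cy_iff).symm
    rw [this]
    by_cases h : Cy x s ⊆ O e n k
    · simp [h]
    · simp [h]
  refine ⟨b, ?_⟩
  rw [eventually_countable_forall]
  intro e
  filter_upwards [hOe e] with x hx
  obtain ⟨p, hp1, hp2, hp3⟩ := search (α := ℕ × ℕ × ℕ) (rho e) (primrec_rho e)
    (fun T => T.2.2) (Primrec.snd.comp Primrec.snd) (fun v => v.2.1)
    (Primrec.fst.comp Primrec.snd) (jn b x)
  -- meaning of the test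
  have hmap : ∀ s t, s ≤ t → (List.range s).map (fun i => ((ini (jn b x) t).getD i 0).unpair.2)
      = ini x s := by
    intro s t hst
    refine List.map_congr_left fun i hi => ?_
    have hi' : i < t := lt_of_lt_of_le (List.mem_range.1 hi) hst
    rw [getD_ini hi']
    show (Nat.pair (b i) (x i)).unpair.2 = x i
    rw [Nat.unpair_pair]
  have hrho : ∀ n k s t, rho e (n, (k, s, t), ini (jn b x) t) = true ↔
      s ≤ t ∧ Nat.pair e (Nat.pair n (Nat.pair k (ec (ini x s)))) < t ∧ Cy x s ⊆ O e n k := by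
    intro n k s t
    unfold rho
    simp only [Bool.and_eq_true, decide_eq_true_eq, ini_length]
    constructor
    · rintro ⟨h1, h2, h3⟩
      rw [hmap s t h1] at h2 h3
      refine ⟨h1, h2, (hbv e n k x s).1 ?_⟩
      rw [getD_ini h2] at h3
      have h4 : (Nat.pair (b (Nat.pair e (Nat.pair n (Nat.pair k (ec (ini x s))))))
        (x (Nat.pair e (Nat.pair n (Nat.pair k (ec (ini x s))))))).unpair.1 = 1 := h3
      rwa [Nat.unpair_pair] at h4
    · rintro ⟨h1, h2, h3⟩
      rw [hmap s t h1]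
      refine ⟨h1, h2, ?_⟩
      rw [getD_ini h2]
      show (Nat.pair (b _) (x _)).unpair.1 = 1
      rw [Nat.unpair_pair]
      exact (hbv e n k x s).2 h3
  have hval : ∀ n k, k ∈ p n → k = F e x n := by
    intro n k hk
    obtain ⟨⟨k', s, t⟩, h1, h2⟩ := hp3 n k hk
    have h3 := (hrho n k' s t).1 h1
    have h4 : x ∈ O e n k' := h3.2.2 (mem_Cy_self x s)
    have h5 := (hx n k').2 h4
    rw [h2]
    exact h5.symm
  have hdom : ∀ n, (p n).Dom := by
    intro n
    obtain ⟨s, hs⟩ := exists_Cy_subset (hO e n (F e x n)) ((hx n _).1 rfl)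
    refine (hp2 n).1 ⟨(F e x n, s, max s (Nat.pair e (Nat.pair n (Nat.pair (F e x n)
      (ec (ini x s)))) + 1)), ?_⟩
    exact (hrho n _ s _).2 ⟨le_max_left _ _, lt_of_lt_of_le (Nat.lt_succ_self _)
      (le_max_right _ _), hs⟩
  have hpe : ∀ n, p n = (PFun.lift (F e x) : ℕ →. ℕ) n := by
    intro n
    refine Part.ext fun k => ?_
    constructor
    · intro hk
      rw [hval n k hk]
      exact Part.mem_some _
    · intro hk
      have h1 : k = F e x n := Part.mem_some_iff.1 hk
      have h2 := Part.get_mem (hdom n)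
      rw [h1, ← hval n _ h2]
      exact h2
  exact le_of_rt (Nat.RecursiveIn.of_eq hp1 hpe)

end Pool.Agent.Helper69.MWF
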