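import Pool.Agent.Helper27.MWF.BP
import Pool.Agent.Helper27.MWF.FUS

/-!
# UNIF: one Borel map represents an automorphism at generic points
-/

set_option autoImplicit false

open Topology Set Filter TopologicalSpace
open Nat.Partrec (Code)

namespace Pool.Agent.Helper69.MWF

open Pool.Agent.Helper95.MW

namespace UNIF

theorem le_of_prim {f g : ℕ → ℕ} (G : ℕ → ℕ → ℕ) (hG : Primrec₂ G) (h : ℕ → ℕ) (hh : Primrec h)
    (e : ∀ n, f n = G n (g (h n))) : LE f g := by
  rw [le_iff]
  have h1 : RT g (fun n => (fun m : ℕ => G m.unpair.1 m.unpair.2) (Nat.pair n (g (h n)))) := by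
    refine rt_comp (G := fun m : ℕ => G m.unpair.1 m.unpair.2) (rt_prim ?_) (rt_pair ?_ ?_)
    · exact Primrec.nat_iff.1 (hG.comp (Primrec.fst.comp Primrec.unpair)
        (Primrec.snd.comp Primrec.unpair))
    · exact rt_prim (Primrec.nat_iff.1 Primrec.id)
    · exact rt_comp (rt_oracle g) (rt_prim (Primrec.nat_iff.1 hh))
  have h2 : f = fun n => (fun m : ℕ => G m.unpair.1 m.unpair.2) (Nat.pair n (g (h n))) := by
    funext n
    simp only [Nat.unpair_pair]
    exact e n
  rw [h2]
  exact h1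

theorem col_le (x : ℕ → ℕ) (i : ℕ) : LE (col x i) x :=
  le_of_prim (fun _ v => v) Primrec.snd (fun n => Nat.pair i n)
    (Primrec₂.natPair.comp (Primrec.const i) Primrec.id) (fun _ => rfl)

theorem cat_le (f : ℕ → ℕ) (n : ℕ) (x : ℕ → ℕ) : LE (cat f n x) x := by
  refine le_of_prim (fun m v => if m < n then (ini f n).getD m 0 else v) ?_ (fun m => m - n)
    (Primrec.nat_sub.comp Primrec.id (Primrec.const n)) (fun m => ?_)
  · refine Primrec.ite ?_ ?_ Primrec.snd
    · exact Primrec.nat_lt.comp Primrec.fst (Primrec.const n)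
    · exact (Primrec.list_getD 0).comp (Primrec.const _) Primrec.fst
  · show (if m < n then f m else x (m - n)) = if m < n then (ini f n).getD m 0 else x (m - n)
    by_cases h : m < n
    · rw [if_pos h, if_pos h]
      rw [List.getD_eq_getElem?_getD, ini_get? h]
      rfl
    · rw [if_neg h, if_neg h]

theorem le_cat (f : ℕ → ℕ) (n : ℕ) (x : ℕ → ℕ) : LE x (cat f n x) := by
  refine le_of_prim (fun _ v => v) Primrec.snd (fun m => m + n)
    (Primrec.nat_add.comp Primrec.id (Primrec.const n)) (fun m => ?_)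
  show x m = if m + n < n then f (m + n) else x (m + n - n)
  rw [if_neg (by omega), Nat.add_sub_cancel]

theorem TE.symm {f g : ℕ → ℕ} (h : TE f g) : TE g f := ⟨h.2, h.1⟩

theorem TE.trans {f g h : ℕ → ℕ} (h1 : TE f g) (h2 : TE g h) : TE f h :=
  ⟨h1.1.trans h2.1, h2.2.trans h1.2⟩

theorem jn_mono {b c x y : ℕ → ℕ} (h1 : LE b c) (h2 : LE x y) : LE (jn b x) (jn c y) :=
  jn_le (h1.trans (le_jn_left _ _)) (h2.trans (le_jn_right _ _))

theorem measurable_jn (b : ℕ → ℕ) : Measurable (fun x : ℕ → ℕ => jn b x) := by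
  refine Continuous.measurable (continuous_pi fun n => ?_)
  exact (continuous_of_discreteTopology (f := fun m : ℕ => Nat.pair (b n) m)).comp
    (continuous_apply n)

theorem measurable_cat (f : ℕ → ℕ) (n : ℕ) : Measurable (fun x : ℕ → ℕ => cat f n x) := by
  refine Continuous.measurable (continuous_pi fun m => ?_)
  by_cases h : m < n
  · have : (fun x : ℕ → ℕ => cat f n x m) = fun _ => f m := by
      funext x; show (if m < n then f m else x (m - n)) = f m
      rw [if_pos h]
    rw [this]; exact continuous_const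
  · have : (fun x : ℕ → ℕ => cat f n x m) = fun x => x (m - n) := by
      funext x; show (if m < n then f m else x (m - n)) = x (m - n)
      rw [if_neg h]
    rw [this]; exact continuous_apply _

theorem measurable_col (i : ℕ) : Measurable (fun x : ℕ → ℕ => col x i) := by
  refine Continuous.measurable (continuous_pi fun n => ?_)
  exact continuous_apply _

theorem cat_mem_Cy (f : ℕ → ℕ) (n : ℕ) (x : ℕ → ℕ) : cat f n x ∈ Cy f n := by
  intro i hi
  show (if i < n then f i else x (i - n)) = f i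
  rw [if_pos hi]

end UNIF

open UNIF in
theorem st_UNIF (hGLOB : ST_GLOB) (hAP : ST_AP) (hBORLE : ST_BORLE) (hL1 : ST_L1) (hL2 : ST_L2)
    (hCCC : ST_CCC) (hFUS : ST_FUS) (hINF : ST_INF) (hRES : ST_RES) : ST_UNIF := by
  intro π hp
  obtain ⟨hA1, hA2, hA3, hA4⟩ := hAP
  obtain ⟨hR1, hR2, hR3, hR4, -⟩ := hRES
  -- the inverse
  have hsurj := hp.surj
  choose σ hσ1 hσ2 using hsurj
  have hpσ : PiAut σ := by
    constructor
    · intro g f
      rw [hp.iff (σ g) (σ f)]
      constructor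
      · intro h
        exact ((hσ1 g).trans h).trans (hσ2 f)
      · intro h
        exact ((hσ2 g).trans h).trans (hσ1 f)
    · intro h
      exact ⟨π h, (hp.iff _ _).2 (hσ1 (π h)), (hp.iff _ _).2 (hσ2 (π h))⟩
  obtain ⟨b1, hb1⟩ := hGLOB π hp
  obtain ⟨b2, hb2⟩ := hGLOB σ hpσ
  set b : ℕ → ℕ := jn b1 b2 with hb
  have hbπ : ∀ z, LE (π z) (jn b z) := fun z =>
    (hb1 z).trans (jn_mono (le_jn_left _ _) (LE.refl _))
  have hbσ : ∀ z, LE (σ z) (jn b z) := fun z =>
    (hb2 z).trans (jn_mono (le_jn_right _ _) (LE.refl _))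
  by_contra hcon
  set V : Code → (ℕ → ℕ) → (ℕ → ℕ) := fun e x => Ap e (jn b x) with hV
  have hVm : ∀ e, Measurable (V e) := fun e => (hA1 e).comp (measurable_jn b)
  have hVle : ∀ e x, LE (V e x) (jn b x) := fun e x => hA2 e (jn b x)
  set R : Code → Set (ℕ → ℕ) := fun e => {x | TE (V e x) (π x)} with hR
  have hRcov : ∀ x, ∃ e, x ∈ R e := by
    intro x
    obtain ⟨c, hc⟩ := hA3 (jn b x) (π x) (hbπ x)
    refine ⟨c, ?_⟩
    show TE (Ap c (jn b x)) (π x)
    rw [hc]
    exact ⟨LE.refl _, LE.refl _⟩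
  have hcatπ : ∀ f n x, TE (π (cat f n x)) (π x) := fun f n x =>
    ⟨(hp.iff _ _).1 (cat_le f n x), (hp.iff _ _).1 (le_cat f n x)⟩
  have hcone : ∀ (e : Code) (f : ℕ → ℕ) (n : ℕ),
      ¬ (∀ᶠ x in residual (ℕ → ℕ), x ∈ Cy f n → x ∈ R e) := by
    intro e f n h
    rw [hR4 f n (fun x => x ∈ R e)] at h
    refine hcon ⟨fun y => V e (cat f n y), (hVm e).comp (measurable_cat f n), ?_⟩
    filter_upwards [h] with y hy
    exact TE.trans hy (hcatπ f n y)
  -- `L1` for codes
  have hcov : ∀ S : Set (ℕ → ℕ), S ⊆ ⋃ i : ℕ, R (Denumerable.ofNat Code i) := by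
    intro S x _
    obtain ⟨e, he⟩ := hRcov x
    refine mem_iUnion.2 ⟨Encodable.encode e, ?_⟩
    rw [Denumerable.ofNat_encode]
    exact he
  obtain ⟨i1, f1, n1, -, -, hEN1⟩ := hL1 univ (fun i => R (Denumerable.ofNat Code i))
    (fun _ => 0) 0 (by
      intro h
      refine MWFusion.not_meagre_of_open (α := ℕ → ℕ) isOpen_univ ⟨fun _ => 0, trivial⟩
        (h.mono ?_)
      intro x _
      exact ⟨trivial, fun i hi => absurd hi (by omega)⟩) (hcov _)
  have hS2 : ¬ IsMeagre ((R (Denumerable.ofNat Code i1))ᶜ ∩ Cy f1 n1) := by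
    intro h
    refine hcone (Denumerable.ofNat Code i1) f1 n1 ?_
    rw [IsMeagre] at h
    filter_upwards [h] with x hx hxC
    by_contra h2
    exact hx ⟨h2, hxC⟩
  obtain ⟨i2, f2, n2, hn12, hf2, hEN2⟩ := hL1 (R (Denumerable.ofNat Code i1))ᶜ
    (fun i => R (Denumerable.ofNat Code i) \ R (Denumerable.ofNat Code i1)) f1 n1 hS2 (by
      intro x hx
      obtain ⟨i, hi⟩ := mem_iUnion.1 (hcov univ (mem_univ x))
      exact mem_iUnion.2 ⟨i, hi, hx⟩)
  have hEN1' : EN (R (Denumerable.ofNat Code i1)) f2 n2 := by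
    intro f' n' hn' hf' hm
    refine hEN1 f' n' (hn12.trans hn') ?_ hm
    intro i hi
    rw [hf' i (by omega), hf2 i hi]
  have hEN2' : EN (R (Denumerable.ofNat Code i2)) f2 n2 := by
    intro f' n' hn' hf' hm
    exact hEN2 f' n' hn' hf' (hm.mono (inter_subset_inter_left _ sdiff_subset))
  have hPm : ∀ e e' : Code, MeasurableSet {x | ¬ LE (V e x) (V e' x)} := fun e e' =>
    (hBORLE.preimage ((hVm e).prodMk (hVm e'))).compl
  -- the two codes
  obtain ⟨e1, e2, hE1, hE2, hP⟩ : ∃ e1 e2 : Code, EN (R e1) f2 n2 ∧ EN (R e2) f2 n2 ∧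
      ¬ IsMeagre ({x | ¬ LE (V e1 x) (V e2 x)} ∩ Cy f2 n2) := by
    by_cases h1 : IsMeagre ({x | ¬ LE (V (Denumerable.ofNat Code i1) x)
        (V (Denumerable.ofNat Code i2) x)} ∩ Cy f2 n2)
    · refine ⟨_, _, hEN2', hEN1', fun h2 => ?_⟩
      refine hEN2 f2 n2 le_rfl (fun i _ => rfl) ((h1.union h2).mono ?_)
      rintro x ⟨⟨hx2, hx1⟩, hxC⟩
      by_cases h3 : LE (V (Denumerable.ofNat Code i1) x) (V (Denumerable.ofNat Code i2) x)
      · right
        refine ⟨fun h4 => hx1 ?_, hxC⟩
        exact TE.trans ⟨h3, h4⟩ hx2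
      · exact Or.inl ⟨h3, hxC⟩
    · exact ⟨_, _, hEN1', hEN2', h1⟩
  obtain ⟨f3, n3, hn23, hf3, hgen⟩ := hL2 _ f2 n2 (hPm e1 e2) hP
  rw [hR4 f3 n3 (fun x => x ∈ {x | ¬ LE (V e1 x) (V e2 x)})] at hgen
  set W : Code → (ℕ → ℕ) → (ℕ → ℕ) := fun e y => V e (cat f3 n3 y) with hW
  have hWm : ∀ e, Measurable (W e) := fun e => (hVm e).comp (measurable_cat f3 n3)
  have hWle : ∀ e y, LE (W e y) (jn b y) := fun e y =>
    (hVle e _).trans (jn_mono (LE.refl _) (cat_le _ _ _))
  have hENA : ∀ e : Code, EN (R e) f2 n2 → EN {y | TE (W e y) (π y)} (fun _ => 0) 0 := by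
    intro e he f' n' _ _ hm
    refine he (cat f3 n3 f') (n3 + n') (by omega) ?_ ?_
    · intro i hi
      show (if i < n3 then f3 i else f' (i - n3)) = f2 i
      rw [if_pos (by omega)]
      exact hf3 i hi
    · have h1 := (hR4 f3 n3 (fun x => ¬ (x ∈ R e ∩ Cy (cat f3 n3 f') (n3 + n')))).2 (by
        rw [IsMeagre] at hm
        filter_upwards [hm] with y hy hy2
        refine hy ⟨?_, ?_⟩
        · exact TE.trans hy2.1 (hcatπ f3 n3 y)
        · intro i hi
          have h2 := hy2.2 (i + n3) (by omega)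
          simp only [cat] at h2
          rw [if_neg (by omega), if_neg (by omega), Nat.add_sub_cancel] at h2
          exact h2)
      rw [IsMeagre]
      filter_upwards [h1] with x hx hx2
      refine hx ?_ hx2
      intro i hi
      have h2 := hx2.2 i (by omega)
      simp only [cat] at h2
      rw [if_pos hi] at h2
      exact h2
  -- the choice of `k`
  set Z : ℕ → (ℕ → Bool) → Set (ℕ → ℕ) := fun j k => {x | ∀ i, (k i = true ↔
    LE (W e1 (col x i)) (V (Denumerable.ofNat Code j) x))} with hZ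
  have hZm : ∀ j k, MeasurableSet (Z j k) := by
    intro j k
    have : Z j k = ⋂ i, {x | k i = true ↔
        LE (W e1 (col x i)) (V (Denumerable.ofNat Code j) x)} := by
      ext x
      simp only [hZ, mem_iInter, Set.mem_ofPred_eq]
    rw [this]
    refine MeasurableSet.iInter fun i => ?_
    have h1 : MeasurableSet {x | LE (W e1 (col x i)) (V (Denumerable.ofNat Code j) x)} :=
      hBORLE.preimage (((hWm e1).comp (measurable_col i)).prodMk (hVm _))
    by_cases hk : k i = true
    · simp only [hk, true_iff]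
      exact h1
    · have h2 : {x | k i = true ↔ LE (W e1 (col x i)) (V (Denumerable.ofNat Code j) x)} =
          {x | LE (W e1 (col x i)) (V (Denumerable.ofNat Code j) x)}ᶜ := by
        ext x
        simp only [Set.mem_ofPred_eq, mem_compl_iff]
        constructor
        · intro h3 h4
          exact hk (h3.2 h4)
        · intro h3
          exact ⟨fun h4 => absurd h4 hk, fun h4 => absurd h4 h3⟩
      rw [h2]
      exact h1.compl
  obtain ⟨k, hk⟩ := hCCC Z hZm (by
    intro j k k' hkk'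
    rw [Set.disjoint_left]
    intro x hx hx'
    apply hkk'
    funext i
    have h1 := (hx i).trans (hx' i).symm
    cases h2 : k i <;> cases h3 : k' i <;> simp_all)
  -- fusion
  have hD : {x : ℕ → ℕ | (∀ j, x ∉ Z j k) ∧ (∀ i, ¬ LE (W e1 (col x i)) (W e2 (col x i))) ∧
      (∀ (i : ℕ) (u : ℕ → ℕ), LE u x → LE u (jn b (col x i)) → LE u (col x i))} ∈
      residual (ℕ → ℕ) := by
    have h1 : ∀ᶠ x in residual (ℕ → ℕ), ∀ j, x ∉ Z j k := by
      rw [eventually_countable_forall]
      intro j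
      exact hk j
    have h2 : ∀ᶠ x in residual (ℕ → ℕ), ∀ i, ¬ LE (W e1 (col x i)) (W e2 (col x i)) := by
      rw [eventually_countable_forall]
      intro i
      exact (hR1 i).eventually hgen
    filter_upwards [h1, h2, hINF b] with x hx1 hx2 hx3
    exact ⟨hx1, hx2, hx3⟩
  obtain ⟨x, ⟨hx1, hx2, hx3⟩, hxA⟩ := hFUS
    (fun i => if k i = true then {y | TE (W e1 y) (π y)} else {y | TE (W e2 y) (π y)}) _
    (by
      intro i
      by_cases hki : k i = true
      · simp only [hki, if_true]; exact hENA e1 hE1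
      · simp only [hki]; exact hENA e2 hE2) hD
  obtain ⟨c, hc⟩ := hA3 (jn b x) (π x) (hbπ x)
  refine hx1 (Encodable.encode c) ?_
  intro i
  rw [Denumerable.ofNat_encode]
  have hVc : V c x = π x := hc
  rw [hVc]
  have hcol : LE (π (col x i)) (π x) := (hp.iff _ _).1 (col_le x i)
  have hA := hxA i
  by_cases hki : k i = true
  · simp only [hki, if_true] at hA
    refine ⟨fun _ => ?_, fun _ => hki⟩
    exact hA.1.trans hcol
  · simp only [hki] at hA
    refine ⟨fun h => absurd h hki, fun h => ?_⟩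
    exfalso
    set u : ℕ → ℕ := σ (W e1 (col x i)) with hu
    have hu1 : LE u x := (hp.iff _ _).2 ((hσ1 _).trans h)
    have hu2 : LE u (jn b (col x i)) :=
      (hbσ _).trans (jn_le (le_jn_left _ _) (hWle e1 _))
    have hu3 := hx3 i u hu1 hu2
    refine hx2 i ?_
    exact ((hσ2 _).trans ((hp.iff _ _).1 hu3)).trans hA.2

end Pool.Agent.Helper69.MWF
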